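import Pool.Agent.Lib_helper16.KP.Defs
import Pool.Agent.Lib_helper16.KP.Order
import Pool.Agent.Lib_helper58.KT.Frob
import Pool.Agent.Lib_helper58.KT.Newt
import Pool.Agent.Lib_helper58.KT.Aut

/-! # Block A for all primes: orders of the roots of unity of degree less than `p ^ (b + 1)` over a
cyclotomic field -/

set_option autoImplicit false

namespace Pool.Agent.EFF

open NumberField Topology Polynomial
open Pool.Agent.TT Pool.Agent.TB Pool.Agent.TF Pool.Agent.RF Pool.Agent.TU Pool.Agent.KT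
open Pool.Agent.KP

theorem efd_order {Ω : Type} [Field Ω] [CharZero Ω] {p m a : ℕ} (hp : p.Prime) (hm : 0 < m)
    (ha : 0 < a) (hpm : ¬ p ∣ m) {z : Ω} (hz : IsPrimitiveRoot z (m * p ^ a))
    (L : IntermediateField ℚ Ω) (hL : L = IntermediateField.adjoin ℚ {z}) {f : L[X]} {d t : ℕ}
    (hd : d < p ^ (t + 1)) (hf0 : f ≠ 0) (hfd : f.natDegree ≤ d) {x : Ω}
    (hx : f.eval₂ (algebraMap L Ω) x = 0) {M : ℕ} (hM : 0 < M) (hxM : x ^ M = 1) :
    ∃ n : ℕ, 0 < n ∧ ¬ p ∣ n ∧ n.totient ≤ d * m.totient ∧ x ^ (n * p ^ (a + t)) = 1 := by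
  have hx' : IsOfFinOrder x := isOfFinOrder_iff_pow_eq_one.mpr ⟨M, hM, hxM⟩
  have hord : orderOf x ≠ 0 := hx'.orderOf_pos.ne'
  obtain ⟨b, n, hpn, hbn⟩ := Nat.exists_eq_pow_mul_and_not_dvd hord p hp.ne_one
  have hn : 0 < n := by
    rcases Nat.eq_zero_or_pos n with h | h
    · subst h
      simp at hpn
    · exact h
  have hpa : 0 < p ^ a := pow_pos hp.pos a
  have hm0 : 0 < m * p ^ a := Nat.mul_pos hm hpa
  have hprim : IsPrimitiveRoot x (orderOf x) := IsPrimitiveRoot.orderOf x
  have hu := hz.pow_mul_pow_lcm hprim hm0.ne' hord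
  set u : Ω := z ^ ((m * p ^ a) / (m * p ^ a).factorizationLCMLeft (orderOf x)) *
    x ^ (orderOf x / (m * p ^ a).factorizationLCMRight (orderOf x)) with hudef
  set T : ℕ := (m * p ^ a).lcm (orderOf x) with hT
  have hTpos : 0 < T := Nat.lcm_pos hm0 (Nat.pos_of_ne_zero hord)
  set N : ℕ := m.lcm n with hN
  have hNpos : 0 < N := Nat.lcm_pos hm hn
  have hpN : ¬ p ∣ N := by
    intro h
    have h1 : p ∣ m * n := h.trans (Nat.lcm_dvd_mul m n)
    rcases hp.dvd_mul.mp h1 with h2 | h2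
    · exact hpm h2
    · exact hpn h2
  have hcop : ∀ c : ℕ, Nat.Coprime N (p ^ c) := fun c =>
    (Nat.Coprime.pow_left c ((Nat.Prime.coprime_iff_not_dvd hp).mpr hpN)).symm
  have hdl : m * p ^ a ∣ T := Nat.dvd_lcm_left _ _
  have hdr : p ^ b * n ∣ T := by
    rw [← hbn]
    exact Nat.dvd_lcm_right _ _
  have hNT : N ∣ T := Nat.lcm_dvd ((Dvd.intro _ rfl).trans hdl) ((Dvd.intro_left _ rfl).trans hdr)
  have hfr : ∀ {w : Ω} {m : ℕ}, 0 < m → IsPrimitiveRoot w m →
      Module.finrank ℚ (IntermediateField.adjoin ℚ {w}) = m.totient := by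
    intro w m hm hw
    rw [IntermediateField.adjoin.finrank (hw.isIntegral hm).tower_top,
      ← Polynomial.cyclotomic_eq_minpoly_rat hw hm, Polynomial.natDegree_cyclotomic]
  have hxL : IsIntegral L x := by
    apply IsAlgebraic.isIntegral
    exact ⟨f, hf0, hx⟩
  set L' : IntermediateField L Ω := IntermediateField.adjoin L {x} with hL'
  have h1 : Module.finrank L L' ≤ d := by
    rw [hL', IntermediateField.adjoin.finrank hxL]
    refine le_trans ?_ hfd
    apply Polynomial.natDegree_le_of_dvd _ hf0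
    exact minpoly.dvd L x hx
  have hfinL : FiniteDimensional ℚ L := by
    rw [hL]
    exact IntermediateField.adjoin.finiteDimensional (hz.isIntegral hm0).tower_top
  have hfinL' : FiniteDimensional L L' := IntermediateField.adjoin.finiteDimensional hxL
  have hfin : FiniteDimensional ℚ L' := FiniteDimensional.trans ℚ L L'
  have h2 : Module.finrank ℚ L * Module.finrank L L' = Module.finrank ℚ L' :=
    Module.finrank_mul_finrank ℚ L L'
  have hzL : z ∈ L := by
    rw [hL]
    exact IntermediateField.mem_adjoin_simple_self ℚ z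
  have hfrL : Module.finrank ℚ L = (m * p ^ a).totient := by
    rw [hL]
    exact hfr hm0 hz
  have hzL' : z ∈ L' := by
    have := L'.algebraMap_mem ⟨z, hzL⟩
    exact this
  have hxL' : x ∈ L' := IntermediateField.mem_adjoin_simple_self L x
  have hle : IntermediateField.adjoin ℚ {u} ≤ L'.restrictScalars ℚ := by
    rw [IntermediateField.adjoin_simple_le_iff]
    exact mul_mem (pow_mem hzL' _) (pow_mem hxL' _)
  have h3 : Module.finrank ℚ (IntermediateField.adjoin ℚ {u}) ≤ Module.finrank ℚ L' := by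
    have : FiniteDimensional ℚ (L'.restrictScalars ℚ) := hfin
    exact Submodule.finrank_mono (R := ℚ)
      (s := (IntermediateField.adjoin ℚ {u}).toSubalgebra.toSubmodule)
      (t := (L'.restrictScalars ℚ).toSubalgebra.toSubmodule) hle
  have hcop2 : Nat.Coprime m (p ^ a) :=
    (Nat.Coprime.pow_left a ((Nat.Prime.coprime_iff_not_dvd hp).mpr hpm)).symm
  rw [hfr hTpos hu, ← h2, hfrL, Nat.totient_mul hcop2] at h3
  -- the main inequality
  have hmain : ∀ c : ℕ, p ^ c ∣ T → N.totient * (p ^ c).totient ≤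
      m.totient * (p ^ a).totient * d := by
    intro c hc
    have h4 : N * p ^ c ∣ T := (hcop c).mul_dvd_of_dvd_of_dvd hNT hc
    have h5 : (N * p ^ c).totient ≤ T.totient :=
      Nat.le_of_dvd (Nat.totient_pos.mpr hTpos) (Nat.totient_dvd_of_dvd h4)
    rw [Nat.totient_mul (hcop c)] at h5
    exact h5.trans (h3.trans (Nat.mul_le_mul_left _ h1))
  have hmN : m.totient ≤ N.totient :=
    Nat.le_of_dvd (Nat.totient_pos.mpr hNpos) (Nat.totient_dvd_of_dvd (Nat.dvd_lcm_left m n))
  have hnN : n.totient ≤ N.totient :=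
    Nat.le_of_dvd (Nat.totient_pos.mpr hNpos) (Nat.totient_dvd_of_dvd (Nat.dvd_lcm_right m n))
  have hba : b ≤ a + t := by
    by_contra hcon
    push Not at hcon
    obtain ⟨a', rfl⟩ : ∃ a', a = a' + 1 := ⟨a - 1, by omega⟩
    have h4 := hmain (a' + t + 1 + 1) ((pow_dvd_pow p (by omega : a' + t + 1 + 1 ≤ b)).trans
      ((Dvd.intro _ rfl).trans hdr))
    rw [Nat.totient_prime_pow_succ hp, Nat.totient_prime_pow_succ hp] at h4
    have h5 : m.totient * (p ^ (a' + t + 1) * (p - 1)) ≤ m.totient * (p ^ a' * (p - 1)) * d :=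
      (Nat.mul_le_mul_right _ hmN).trans h4
    have hpos : 0 < m.totient * (p ^ a' * (p - 1)) := by
      have h6 : 0 < p - 1 := by
        have := hp.two_le
        omega
      have h7 : 0 < m.totient := Nat.totient_pos.mpr hm
      have h8 : 0 < p ^ a' := pow_pos hp.pos _
      positivity
    have h6 : m.totient * (p ^ (a' + t + 1) * (p - 1)) =
        m.totient * (p ^ a' * (p - 1)) * p ^ (t + 1) := by
      rw [add_assoc, pow_add]
      ring
    rw [h6] at h5
    have h7 := Nat.le_of_mul_le_mul_left h5 hpos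
    omega
  refine ⟨n, hn, hpn, ?_, ?_⟩
  · have h4 := hmain a ((Dvd.intro_left _ rfl).trans hdl)
    have h5 : n.totient * (p ^ a).totient ≤ (d * m.totient) * (p ^ a).totient := by
      calc n.totient * (p ^ a).totient ≤ N.totient * (p ^ a).totient :=
            Nat.mul_le_mul_right _ hnN
        _ ≤ m.totient * (p ^ a).totient * d := h4
        _ = (d * m.totient) * (p ^ a).totient := by ring
    exact Nat.le_of_mul_le_mul_right h5 (Nat.totient_pos.mpr hpa)
  · obtain ⟨c, hc⟩ := pow_dvd_pow p hba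
    have h4 : n * p ^ (a + t) = orderOf x * c := by
      rw [hbn, hc]
      ring
    rw [h4, pow_mul, pow_orderOf_eq_one, one_pow]

/-- BLOCK A for all primes (orders of the roots of unity). NO hypothesis on `K`: the power sums of
the `x i` lie in every subfield that contains `zm` and `w`. -/
theorem block_A_all {p m c n d b : ℕ} (hp : p.Prime) (hpm : ¬ p ∣ m) (hcn : c ≤ n) (hn : 0 < n)
    (hd : d < p ^ (b + 1)) {zm w : Qbar} (hzm : zm ^ (m * p ^ c) = 1)
    (hw : IsPrimitiveRoot w (p ^ n)) (x : Fin d → Qbar)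
    (hx : ∀ L : IntermediateField ℚ Qbar, zm ∈ L → w ∈ L → ∀ r, ∑ i, x i ^ r ∈ L)
    {M : ℕ} (hM : 0 < M) {i : Fin d} (hi : x i ^ M = 1) :
    ∃ M' : ℕ, 0 < M' ∧ ¬ p ∣ M' ∧ M'.totient ≤ d * m.totient ∧
      x i ^ (M' * p ^ (n + b)) = 1 := by
  have hm : 0 < m := Nat.pos_of_ne_zero fun h => hpm (by rw [h]; exact dvd_zero p)
  have hpn : 0 < p ^ n := pow_pos hp.pos n
  have hm0 : 0 < m * p ^ n := Nat.mul_pos hm hpn
  have hmdvd : m * p ^ c ∣ m * p ^ n := Nat.mul_dvd_mul_left _ (pow_dvd_pow p hcn)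
  obtain ⟨z, hz⟩ := exists_prim hm0
  have : NeZero (m * p ^ n) := ⟨hm0.ne'⟩
  set L : IntermediateField ℚ Qbar := IntermediateField.adjoin ℚ {z} with hL
  have hzL : z ∈ L := IntermediateField.mem_adjoin_simple_self ℚ z
  have hzmL : zm ∈ L := by
    obtain ⟨t, ht⟩ := hmdvd
    obtain ⟨i, -, hi⟩ := hz.eq_pow_of_pow_eq_one (ξ := zm) (by rw [ht, pow_mul, hzm, one_pow])
    rw [← hi]
    exact pow_mem hzL i
  have hwL : w ∈ L := by
    obtain ⟨i, -, hi⟩ := hz.eq_pow_of_pow_eq_one (ξ := w) (by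
      rw [mul_comm, pow_mul, hw.pow_eq_one, one_pow])
    rw [← hi]
    exact pow_mem hzL i
  let sL : ℕ → L := fun r => ⟨∑ i, x i ^ r, hx L hzmL hwL r⟩
  have hf : (npoly d sL).map (algebraMap L Qbar) = ∏ i, (X - C (x i)) := by
    rw [npoly_map]
    exact npoly_family x _ fun r _ => rfl
  have hfne : npoly d sL ≠ 0 := by
    intro h0
    rw [h0, Polynomial.map_zero] at hf
    exact (Polynomial.monic_prod_of_monic Finset.univ (fun i => X - C (x i))
      fun i _ => Polynomial.monic_X_sub_C _).ne_zero hf.symm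
  obtain ⟨M', hM', hpM', hφ, hxi⟩ := efd_order hp hm hn hpm hz L hL hd hfne
    (npoly_natDegree_le d sL) (x := x i) (by
      rw [← Polynomial.eval_map, hf, Polynomial.eval_prod]
      apply Finset.prod_eq_zero (Finset.mem_univ i)
      rw [Polynomial.eval_sub, Polynomial.eval_X, Polynomial.eval_C, sub_self]) hM hi
  exact ⟨M', hM', hpM', hφ, hxi⟩

end Pool.Agent.EFF

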