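import Pool.Agent.Lib_helper35.AP.FG
import Pool.Agent.Lib_helper72.AP.LF
import Pool.Agent.Lib_helper58.KT.Sym

/-!
# The Frobenius package with the Euler product
-/

set_option autoImplicit false

namespace Pool.Agent.EFF

open NumberField Topology Polynomial
open Pool.Agent.TT Pool.Agent.TB Pool.Agent.TF Pool.Agent.RF Pool.Agent.TU Pool.Agent.KT
open Pool.Agent.AP

theorem ap_package {K : Type} [Field K] [NumberField K] [Algebra K Qbar] {p m : ℕ}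
    (hp : p.Prime) (hm : 0 < m) {ζ : 𝓞 K} (hζ : IsPrimitiveRoot ζ m) {N q : ℕ}
    [hqF : Fact q.Prime] (hqm : m < q)
    (hqN : p ^ N < q) {Q : Ideal (𝓞 Qbar)}
    (hQ : Q.IsPrime) (hqQ : (q : 𝓞 Qbar) ∈ Q) {σ : Qbar ≃ₐ[K] Qbar}
    (hσ : ∀ x y : 𝓞 Qbar, (y : Qbar) = σ x → y - x ^ q ∈ Q)
    (hfix : ∀ z : Qbar, z ^ p ^ N = 1 → σ z = z) {s : ℕ} (S : Fin s → TowerStratum K) (d : ℕ) :
    ∃ (w : ℕ → Qbar) (Θ : ℕ → (𝓞 K)[X]) (L : ℕ → Qbar[X]),
      (∀ n ≤ N, IsPrimitiveRoot (w n) (p ^ n)) ∧ p ^ N ∣ q - 1 ∧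
      (∀ R : Subring Qbar, emb K ζ ∈ R → ∀ u ∈ R, ∀ r, ((Θ r).map (emb K)).eval u ∈ R) ∧
      (∀ n ≤ N, ∃ σn : Qbar ≃ₐ[level K p n] Qbar, (∀ x, σn x = σ x) ∧
        ∀ ω : 𝓞 (level K p n), IsPrimitiveRoot ω (p ^ n) → ∀ r, 1 ≤ r →
          ∃ (F : Type) (_ : Field F) (_ : Fintype F) (φ : 𝓞 (level K p n) →+* F),
            Fintype.card F = q ^ r ∧
            (∀ x : 𝓞 (level K p n), φ x = 0 ↔
              algebraMap (𝓞 (level K p n)) (𝓞 Qbar) x ∈ Q) ∧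
            ((Θ r).map (emb K)).eval (w n) =
              emb (level K p n) (towerSum m ζ (p ^ n) ω φ S)) ∧
      (∀ R : Subring Qbar, emb K ζ ∈ R → ∀ j i, (L j).coeff i ∈ R) ∧
      (∀ n ≤ N, (L 0).eval (w n) = 1 ∧ ∀ j : ℕ, 1 ≤ j → j ≤ d → (j : Qbar) * (L j).eval (w n) =
        -∑ i ∈ Finset.range j, ((Θ (i + 1)).map (emb K)).eval (w n) *
          (L (j - 1 - i)).eval (w n)) := by
  classical
  let _ : ∀ l, Fintype (GaloisField q l) := fun l => Fintype.ofFinite _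
  obtain ⟨w, φ₀, η₀, a, hw, hww, hN, hφζ, hη₀, ha, hlev⟩ :=
    block_FG hp hm hζ hqm hqN hQ hqQ hσ hfix
  obtain ⟨E, hE⟩ := block_LF (pow_pos hp.pos N) hm hζ φ₀ hφζ hη₀ a ha S d
  have hmap : ∀ r, ((theta (RingHom.id (𝓞 K)) m ζ
      ((algebraMap (ZMod q) (GaloisField q r)).comp φ₀) (a r) S).map (emb K)) =
      theta (emb K) m ζ ((algebraMap (ZMod q) (GaloisField q r)).comp φ₀) (a r) S := by
    intro r
    rw [theta_map, RingHom.comp_id]
  refine ⟨w, fun r => theta (RingHom.id (𝓞 K)) m ζ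
      ((algebraMap (ZMod q) (GaloisField q r)).comp φ₀) (a r) S,
    fun j => (E j).map (eval₂RingHom (Int.castRingHom Qbar) (emb K ζ)), hw, hN, ?_, ?_, ?_, ?_⟩
  · intro R hR u hu r
    simp only
    rw [hmap]
    exact theta_mem S (a r) (emb K) R hR hu _
  · intro n hn
    obtain ⟨σn, hσn, h⟩ := hlev S n hn
    refine ⟨σn, hσn, ?_⟩
    intro ω hω r hr
    obtain ⟨F, iF, iFt, ψ, h1, h2, h3⟩ := h ω hω r hr
    refine ⟨F, iF, iFt, ψ, h1, h2, ?_⟩
    simp only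
    rw [hmap]
    exact h3
  · intro R hR j i
    rw [Polynomial.coeff_map, coe_eval₂RingHom, Polynomial.eval₂_eq_sum_range]
    apply sum_mem
    intro l _
    apply mul_mem
    · rw [eq_intCast]
      exact intCast_mem R _
    · exact pow_mem hR _
  · intro n hn
    have hwN : w n ^ p ^ N = 1 := by
      obtain ⟨t, ht⟩ := pow_dvd_pow p hn
      rw [ht, pow_mul, (hw n hn).pow_eq_one, one_pow]
    obtain ⟨h0, h1⟩ := hE (emb K) (w n) hwN
    have hev : ∀ j, ((E j).map (eval₂RingHom (Int.castRingHom Qbar) (emb K ζ))).eval (w n) =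
        ev2 (emb K ζ) (w n) (E j) := by
      intro j
      rw [Polynomial.eval_map]
      rfl
    refine ⟨by rw [hev]; exact h0, ?_⟩
    intro j hj1 hj
    simp only [hev, hmap]
    exact h1 j hj1 hj

end Pool.Agent.EFF
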