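import Pool.Agent.Lib_helper58.KT.Newt
import Pool.Agent.Lib_helper76.IT.U
import Pool.Agent.Lib_helper76.IT.Rem

/-!
# The p-adic steps, for all primes and all dimensions
-/

set_option autoImplicit false

namespace Pool.Agent.EFF

open Polynomial Topology
open Pool.Agent.KT Pool.Agent.IT

/-- Newton's recursion determines the elementary symmetric functions. -/
theorem apm_newt {A : Type} [Field A] [CharZero A] (s L : ℕ → A) (h0 : L 0 = 1) {d : ℕ}
    (h : ∀ j, j ≤ d → (j : A) * L j = -∑ i ∈ Finset.range j, s (i + 1) * L (j - 1 - i)) :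
    ∀ j, j ≤ d → L j = (-1) ^ j * newt s j := by
  intro j
  induction j using Nat.strong_induction_on with
  | _ j ih =>
    intro hj
    cases j with
    | zero => rw [h0, newt_zero, pow_zero, mul_one]
    | succ k =>
      have hk0 : ((k + 1 : ℕ) : A) ≠ 0 := by exact_mod_cast (Nat.succ_pos k).ne'
      apply mul_left_cancel₀ hk0
      rw [h (k + 1) hj, newt_succ, Rat.smul_def]
      have h1 : ∑ i ∈ Finset.range (k + 1), s (i + 1) * L (k + 1 - 1 - i) =
          ∑ i ∈ Finset.range (k + 1), (-1) ^ i * newt s i * s (k + 1 - i) := by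
        rw [← Finset.sum_range_reflect]
        apply Finset.sum_congr rfl
        intro i hi
        rw [Finset.mem_range] at hi
        have e1 : k + 1 - 1 - i + 1 = k + 1 - i := by omega
        have e2 : k + 1 - 1 - (k + 1 - 1 - i) = i := by omega
        rw [e1, e2, ih i (by omega) (by omega)]
        ring
      rw [h1]
      have h2 : ((k + 1 : ℕ) : A) * ((((k : ℚ) + 1)⁻¹ : ℚ) : A) = 1 := by
        push_cast
        have : ((k : A) + 1) ≠ 0 := by exact_mod_cast (Nat.succ_pos k).ne'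
        exact mul_inv_cancel₀ this
      have h3 : ((k + 1 : ℕ) : A) * ((-1) ^ (k + 1) * (((((k : ℚ) + 1)⁻¹ : ℚ) : A) *
          ((-1) ^ k * ∑ i ∈ Finset.range (k + 1), (-1) ^ i * newt s i * s (k + 1 - i)))) =
          (((k + 1 : ℕ) : A) * ((((k : ℚ) + 1)⁻¹ : ℚ) : A)) * ((-1) ^ (k + 1) * (-1) ^ k) *
            ∑ i ∈ Finset.range (k + 1), (-1) ^ i * newt s i * s (k + 1 - i) := by ring
      rw [h3, h2, one_mul, ← pow_add]
      have h4 : (-1 : A) ^ (k + 1 + k) = -1 := by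
        apply Odd.neg_one_pow
        exact ⟨k, by ring⟩
      rw [h4, neg_one_mul]

/-- The polynomial with the coefficients `L 0, ..., L d`. -/
noncomputable def lpoly {A : Type} [CommRing A] (d : ℕ) (L : ℕ → A) : A[X] :=
  ∑ j ∈ Finset.range (d + 1), C (L j) * X ^ (d - j)

theorem lpoly_map {A B : Type} [CommRing A] [CommRing B] (f : A →+* B) (d : ℕ) (L : ℕ → A) :
    (lpoly d L).map f = lpoly d fun j => f (L j) := by
  unfold lpoly
  rw [Polynomial.map_sum]
  apply Finset.sum_congr rfl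
  intro j _
  rw [Polynomial.map_mul, Polynomial.map_C, Polynomial.map_pow, Polynomial.map_X]

theorem lpoly_npoly {A : Type} [Field A] [CharZero A] (s L : ℕ → A) (h0 : L 0 = 1) {d : ℕ}
    (h : ∀ j, j ≤ d → (j : A) * L j = -∑ i ∈ Finset.range j, s (i + 1) * L (j - 1 - i)) :
    lpoly d L = npoly d s := by
  unfold lpoly npoly
  apply Finset.sum_congr rfl
  intro j hj
  rw [Finset.mem_range] at hj
  rw [apm_newt s L h0 h j (by omega), C_mul, C_pow, C_neg, C_1]
  ring

/-- The coefficients are continuous functions of the power sums. -/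
theorem apm_near {C : Type} [NormedField C] [CharZero C] (d : ℕ) (s₀ : ℕ → C) {r : ℝ}
    (hr : 0 < r) :
    ∃ ε : ℝ, 0 < ε ∧ ∃ I : Finset ℕ, ∀ s : ℕ → C, (∀ l ∈ I, ‖s l - s₀ l‖ < ε) →
      ∀ i, i ≤ d → ‖(npoly d s).coeff i - (npoly d s₀).coeff i‖ < r := by
  have h1 : ∀ i, Continuous fun s : ℕ → C => ‖(npoly d s).coeff i - (npoly d s₀).coeff i‖ :=
    fun i => ((npoly_continuous (fun s : ℕ → C => s) (fun r => continuous_apply r) d i).sub
      continuous_const).norm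
  have h2 : {s : ℕ → C | ∀ i ∈ Finset.range (d + 1),
      ‖(npoly d s).coeff i - (npoly d s₀).coeff i‖ < r} ∈ 𝓝 s₀ := by
    have h3 : {s : ℕ → C | ∀ i ∈ Finset.range (d + 1),
        ‖(npoly d s).coeff i - (npoly d s₀).coeff i‖ < r} =
        ⋂ i ∈ Finset.range (d + 1), {s : ℕ → C |
          ‖(npoly d s).coeff i - (npoly d s₀).coeff i‖ < r} := by
      ext s
      simp only [Set.mem_ofPred_eq, Set.mem_iInter]
    rw [h3, Filter.biInter_finset_mem]
    intro i _
    apply (isOpen_lt (h1 i) continuous_const).mem_nhds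
    rw [Set.mem_ofPred_eq, sub_self, norm_zero]
    exact hr
  rw [nhds_pi, Filter.mem_pi] at h2
  obtain ⟨I, hI, t, ht, hsub⟩ := h2
  have h3 : ∀ l, ∃ ε : ℝ, 0 < ε ∧ Metric.ball (s₀ l) ε ⊆ t l := fun l => by
    obtain ⟨ε, hε, h⟩ := Metric.mem_nhds_iff.mp (ht l)
    exact ⟨ε, hε, h⟩
  choose ε hε hεt using h3
  by_cases hne : hI.toFinset.Nonempty
  · refine ⟨hI.toFinset.inf' hne ε, ?_, hI.toFinset, ?_⟩
    · rw [Finset.lt_inf'_iff]
      exact fun l _ => hε l
    · intro s hs i hi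
      have h4 : s ∈ Set.pi I t := by
        intro l hl
        apply hεt l
        rw [Metric.mem_ball, dist_eq_norm]
        have hl' : l ∈ hI.toFinset := hI.mem_toFinset.mpr hl
        exact lt_of_lt_of_le (hs l hl') (Finset.inf'_le _ hl')
      exact hsub h4 i (Finset.mem_range.mpr (by omega))
  · refine ⟨1, one_pos, ∅, ?_⟩
    intro s _ i hi
    have h4 : s ∈ Set.pi I t := by
      intro l hl
      exact absurd ⟨l, hI.mem_toFinset.mpr hl⟩ hne
    exact hsub h4 i (Finset.mem_range.mpr (by omega))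

/-- The roots of a monic polynomial with integral coefficients are integral. -/
theorem apm_int {L : Type} [NormedField L] [IsUltrametricDist L] {d : ℕ} (α : Fin d → L)
    (hco : ∀ l, ‖(∏ j, (X - C (α j))).coeff l‖ ≤ 1) (i : Fin d) : ‖α i‖ ≤ 1 := by
  classical
  set F : L[X] := ∏ j, (X - C (α j)) with hF
  have hFm : F.Monic := monic_prod_of_monic _ _ fun j _ => monic_X_sub_C _
  have hdeg : F.natDegree = d := by
    rw [hF, natDegree_prod_of_monic _ _ fun j _ => monic_X_sub_C _]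
    simp
  have hroot : F.eval (α i) = 0 := by
    rw [hF, eval_prod]
    exact Finset.prod_eq_zero (Finset.mem_univ i) (by simp)
  by_contra hno
  rw [not_le] at hno
  rw [eval_eq_sum_range, hdeg, Finset.sum_range_succ] at hroot
  have hlead : F.coeff d = 1 := by
    have := hFm.coeff_natDegree
    rwa [hdeg] at this
  rw [hlead, one_mul] at hroot
  have h2 : ‖α i ^ d‖ = ‖∑ l ∈ Finset.range d, F.coeff l * α i ^ l‖ := by
    rw [eq_neg_of_add_eq_zero_right hroot, norm_neg]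
  have hd : 0 < d := i.pos
  have h3 : ‖∑ l ∈ Finset.range d, F.coeff l * α i ^ l‖ ≤ ‖α i‖ ^ (d - 1) := by
    refine IsUltrametricDist.norm_sum_le_of_forall_le_of_nonneg (by positivity) fun l hl => ?_
    rw [norm_mul, norm_pow]
    calc ‖F.coeff l‖ * ‖α i‖ ^ l ≤ 1 * ‖α i‖ ^ (d - 1) :=
          mul_le_mul (hco l) (pow_le_pow_right₀ hno.le
            (by rw [Finset.mem_range] at hl; omega)) (by positivity) zero_le_one
      _ = ‖α i‖ ^ (d - 1) := one_mul _
  rw [← h2, norm_pow] at h3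
  have h4 : ‖α i‖ ^ (d - 1) < ‖α i‖ ^ d := pow_lt_pow_right₀ hno (by omega)
  exact absurd h3 (not_le.mpr h4)

/-- **The transfer.** `F(s; X)` a polynomial in `X` over `O[s]`; `α` the roots of `F(s; X)`, `f₀` close
to `F(s₀; X)`; `e + 1` of the roots are close to `ξ a * s ^ u a`. Then the remainder of `f₀` modulo
the product of the `X - ξ a * s₀ ^ u a` is small. -/
theorem apm_transfer {p : ℕ} [hp : Fact p.Prime] {O : Type} [CommRing O] (θ : O →+* ℂ_[p]) {r : ℝ}
    (hr0 : 0 ≤ r) (hr : ∀ a : O, ‖θ a‖ = 1 ∨ ‖θ a‖ ≤ r) (hr1 : r < 1) {d e : ℕ}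
    (F : O[X][X]) (ξ : Fin (e + 1) → O) (u : Fin (e + 1) → ℕ) {s₀ s : ℂ_[p]} (hs₀ : ‖s₀‖ = 1)
    (hs : ‖s‖ = 1) (hξ : ∀ a, ‖θ (ξ a)‖ ≤ 1) (h0 : ‖s₀ - 1‖ ≤ ‖s - 1‖) (h1 : ‖s - 1‖ < 1)
    (α : Fin d → ℂ_[p]) (hα : ∀ i, ‖α i‖ ≤ 1)
    (hF : F.map (eval₂RingHom θ s) = ∏ j, (X - C (α j))) (f₀ : ℂ_[p][X])
    (hf₀ : ∀ i, ‖(F.map (eval₂RingHom θ s₀) - f₀).coeff i‖ ≤ r) (ι : Fin (e + 1) ↪ Fin d)
    (hι : ∀ a, ‖α (ι a) - θ (ξ a) * s ^ u a‖ ≤ r) (i : ℕ) :
    ‖(f₀ %ₘ (∏ a, (X - C (θ (ξ a) * s₀ ^ u a)))).coeff i‖ ≤ r := by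
  classical
  by_contra hcon
  rw [not_le] at hcon
  set A : (O[X])[X] := ∏ a, (X - C (C (ξ a) * X ^ u a)) with hA
  have hAm : A.Monic := monic_prod_of_monic _ _ fun a _ => monic_X_sub_C _
  have hAz : ∀ z : ℂ_[p], A.map (eval₂RingHom θ z) = ∏ a, (X - C (θ (ξ a) * z ^ u a)) := by
    intro z
    rw [hA, Polynomial.map_prod]
    refine Finset.prod_congr rfl fun a _ => ?_
    rw [Polynomial.map_sub, map_X, map_C]
    simp
  have key : ∀ z : ℂ_[p], (F.map (eval₂RingHom θ z) %ₘ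
        (∏ a, (X - C (θ (ξ a) * z ^ u a)))).coeff i = ((F %ₘ A).coeff i).eval₂ θ z := by
    intro z
    rw [← hAz, ← map_modByMonic _ hAm, coeff_map]
    rfl
  set A₀ : ℂ_[p][X] := ∏ a, (X - C (θ (ξ a) * s₀ ^ u a)) with hA₀
  have hA₀m : A₀.Monic := monic_prod_of_monic _ _ fun a _ => monic_X_sub_C _
  have hA₀1 : SmallCoeff A₀ 1 := smallCoeff_prod _ _ fun a _ => smallCoeff_X_sub_C (by
    rw [norm_mul, norm_pow, hs₀, one_pow, mul_one]
    exact hξ a)
  have hbig : r < ‖((F %ₘ A).coeff i).eval₂ θ s₀‖ := by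
    rw [← key s₀]
    by_contra hno
    rw [not_lt] at hno
    have h2 : (f₀ %ₘ A₀).coeff i = (F.map (eval₂RingHom θ s₀) %ₘ A₀).coeff i +
        -((F.map (eval₂RingHom θ s₀) - f₀) %ₘ A₀).coeff i := by
      rw [sub_modByMonic, coeff_sub]
      ring
    have h3 : ‖(f₀ %ₘ A₀).coeff i‖ ≤ r := by
      rw [h2]
      refine (IsUltrametricDist.norm_add_le_max _ _).trans (max_le hno ?_)
      rw [norm_neg]
      exact smallCoeff_modByMonic hA₀m hA₀1 hr0 hf₀ i
    exact absurd hcon (not_lt.mpr h3)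
  have hbig2 := block_U θ hr0 hr hr1 _ h0 h1 hbig
  rw [← key s, hF] at hbig2
  have h4 := block_REM α hα ι (fun a => θ (ξ a) * s ^ u a)
    (fun a => by
      rw [norm_mul, norm_pow, hs, one_pow, mul_one]
      exact hξ a) hr0 hι (c := 1) (by rw [norm_one]) i
  rw [C_1, one_mul] at h4
  exact absurd hbig2 (not_lt.mpr h4)

end Pool.Agent.EFF
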